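import Mathlib

set_option autoImplicit false

namespace Pool.Agent.Results.MP_285f62_co.NoFactor

open Finset SimpleGraph

/-- The blow-up `G(t)`: every vertex `v` is replaced by the independent set `{v} × Fin t`. -/
def blowup {V : Type} (G : SimpleGraph V) (t : ℕ) : SimpleGraph (V × Fin t) where
  Adj x y := G.Adj x.1 y.1
  symm := ⟨fun _ _ h => SimpleGraph.Adj.symm h⟩
  loopless := ⟨fun _ h => G.loopless.irrefl _ h⟩

/-- `H` has a triangle factor: the vertex set is partitioned by a family `P` of three-element sets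
each spanning a triangle. -/
def HasTriangleFactor {V : Type} (H : SimpleGraph V) : Prop :=
  ∃ P : Set (Finset V), (∀ S ∈ P, H.IsNClique 3 S) ∧ ∀ v : V, ∃! S : Finset V, S ∈ P ∧ v ∈ S

/-- auxiliary: a triangle factor given by a bijection. -/
def FF {V : Type} (H : SimpleGraph V) : Prop :=
  ∃ (ι : Type) (g : ι × Fin 3 → V), Function.Bijective g ∧
    ∀ i a b, a ≠ b → H.Adj (g (i, a)) (g (i, b))

lemma FF.has {V : Type} {H : SimpleGraph V} (h : FF H) : HasTriangleFactor H := by
  classical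
  obtain ⟨ι, g, hg, hadj⟩ := h
  refine ⟨Set.range (fun i => (univ : Finset (Fin 3)).image (fun a => g (i, a))), ?_, ?_⟩
  · rintro S ⟨i, rfl⟩
    rw [isNClique_iff]
    constructor
    · intro x hx y hy hxy
      simp only [coe_image, coe_univ, Set.image_univ, Set.mem_range] at hx hy
      obtain ⟨a, rfl⟩ := hx
      obtain ⟨b, rfl⟩ := hy
      exact hadj i a b (fun h => hxy (by rw [h]))
    · rw [card_image_of_injective]
      · simp
      · intro a b hab
        have := hg.1 hab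
        simpa using this
  · intro v
    obtain ⟨⟨i, a⟩, rfl⟩ := hg.2 v
    refine ⟨univ.image (fun a => g (i, a)), ⟨⟨i, rfl⟩, by simp⟩, ?_⟩
    rintro S ⟨⟨j, rfl⟩, hS⟩
    simp only [mem_image, mem_univ, true_and] at hS
    obtain ⟨b, hb⟩ := hS
    have := hg.1 hb
    have hij : j = i := by
      have := congrArg Prod.fst this
      simpa using this
    rw [hij]

lemma FF.add {V : Type} {G : SimpleGraph V} {a b : ℕ} (ha : FF (blowup G a))
    (hb : FF (blowup G b)) : FF (blowup G (a + b)) := by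
  obtain ⟨ι, g, hg, hg'⟩ := ha
  obtain ⟨κ, h, hh, hh'⟩ := hb
  refine ⟨ι ⊕ κ, fun p => match p with
    | (Sum.inl i, c) => ((g (i, c)).1, Fin.castAdd b (g (i, c)).2)
    | (Sum.inr j, c) => ((h (j, c)).1, Fin.natAdd a (h (j, c)).2), ?_, ?_⟩
  · constructor
    · rintro ⟨i | j, c⟩ ⟨i' | j', c'⟩ hp
      · simp only [Prod.mk.injEq, Fin.castAdd_inj] at hp
        have := hg.1 (Prod.ext hp.1 hp.2)
        simp only [Prod.mk.injEq] at this
        rw [this.1, this.2]
      · simp only [Prod.mk.injEq] at hp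
        have := congrArg Fin.val hp.2
        simp only [Fin.val_castAdd, Fin.val_natAdd] at this
        have h2 := (g (i, c)).2.isLt
        omega
      · simp only [Prod.mk.injEq] at hp
        have := congrArg Fin.val hp.2
        simp only [Fin.val_castAdd, Fin.val_natAdd] at this
        have h2 := (g (i', c')).2.isLt
        omega
      · simp only [Prod.mk.injEq, Fin.natAdd_inj] at hp
        have := hh.1 (Prod.ext hp.1 hp.2)
        simp only [Prod.mk.injEq] at this
        rw [this.1, this.2]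
    · rintro ⟨v, x⟩
      refine Fin.addCases (fun y => ?_) (fun y => ?_) x
      · obtain ⟨⟨i, c⟩, hic⟩ := hg.2 (v, y)
        refine ⟨(Sum.inl i, c), ?_⟩
        simp only [hic]
      · obtain ⟨⟨i, c⟩, hic⟩ := hh.2 (v, y)
        refine ⟨(Sum.inr i, c), ?_⟩
        simp only [hic]
  · rintro (i | j) c d hcd
    · exact hg' i c d hcd
    · exact hh' j c d hcd

/-- The edges of the 12-vertex example. -/
def edges : List (ℕ × ℕ) :=
  [(0, 4), (0, 6), (0, 10), (0, 11), (1, 4), (1, 5), (1, 6), (1, 8), (1, 9), (2, 5), (2, 7),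
   (2, 8), (2, 11), (3, 6), (3, 7), (3, 9), (3, 10), (4, 9), (4, 11), (5, 8), (5, 9), (6, 8),
   (6, 10), (7, 9), (7, 10), (7, 11)]

/-- The 12-vertex example. -/
def ex : SimpleGraph (Fin 12) where
  Adj i j := i ≠ j ∧ ((i.val, j.val) ∈ edges ∨ (j.val, i.val) ∈ edges)
  symm := ⟨fun _ _ h => ⟨h.1.symm, h.2.symm⟩⟩
  loopless := ⟨fun _ h => h.1 rfl⟩

instance : DecidableRel ex.Adj := fun i j => by unfold ex; infer_instance

/-- the three parts: `{0,..,3}`, `{4,..,7}`, `{8,..,11}`. -/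
def part (i : Fin 12) : Fin 3 := ⟨i.val / 4, by omega⟩

/-- the factor of `G(2)`. -/
def g2 : Fin 8 × Fin 3 → Fin 12 × Fin 2 := fun p =>
  (![![(0, 0), (4, 0), (11, 0)], ![(0, 1), (6, 0), (10, 0)], ![(1, 0), (4, 1), (9, 0)],
     ![(1, 1), (5, 0), (8, 0)], ![(2, 0), (5, 1), (8, 1)], ![(2, 1), (7, 0), (11, 1)],
     ![(3, 0), (6, 1), (10, 1)], ![(3, 1), (7, 1), (9, 1)]] : Fin 8 → Fin 3 → Fin 12 × Fin 2) p.1 p.2

/-- the factor of `G(3)`. -/
def g3 : Fin 12 × Fin 3 → Fin 12 × Fin 3 := fun p =>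
  (![![(0, 0), (4, 0), (11, 0)], ![(0, 1), (4, 1), (11, 1)], ![(0, 2), (6, 0), (10, 0)],
     ![(1, 0), (4, 2), (9, 0)], ![(1, 1), (5, 0), (9, 1)], ![(1, 2), (6, 1), (8, 0)],
     ![(2, 0), (5, 1), (8, 1)], ![(2, 1), (5, 2), (8, 2)], ![(2, 2), (7, 0), (11, 2)],
     ![(3, 0), (6, 2), (10, 1)], ![(3, 1), (7, 1), (9, 2)], ![(3, 2), (7, 2), (10, 2)]] :
     Fin 12 → Fin 3 → Fin 12 × Fin 3) p.1 p.2

lemma g2_inj : Function.Injective g2 := by decide

lemma g3_inj : Function.Injective g3 := by decide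

lemma ff2 : FF (blowup ex 2) := by
  refine ⟨Fin 8, g2, ?_, ?_⟩
  · rw [Fintype.bijective_iff_injective_and_card]
    exact ⟨g2_inj, by simp⟩
  · have h : ∀ i a b, a ≠ b → ex.Adj (g2 (i, a)).1 (g2 (i, b)).1 := by decide
    exact h

lemma ff3 : FF (blowup ex 3) := by
  refine ⟨Fin 12, g3, ?_, ?_⟩
  · rw [Fintype.bijective_iff_injective_and_card]
    exact ⟨g3_inj, by simp⟩
  · have h : ∀ i a b, a ≠ b → ex.Adj (g3 (i, a)).1 (g3 (i, b)).1 := by decide
    exact h

lemma ff (t : ℕ) (ht : 2 ≤ t) : FF (blowup ex t) := by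
  induction t using Nat.strong_induction_on with
  | _ t ih =>
    rcases Nat.lt_or_ge t 4 with h | h
    · interval_cases t
      · exact ff2
      · exact ff3
    · have h1 := ih (t - 2) (by omega) (by omega)
      have h2 := FF.add h1 ff2
      have : t - 2 + 2 = t := by omega
      rwa [this] at h2

/-- the 11 triangles. -/
def tri : Fin 11 → Finset (Fin 12) :=
  ![{0, 4, 11}, {0, 6, 10}, {1, 4, 9}, {1, 5, 8}, {1, 5, 9}, {1, 6, 8}, {2, 5, 8}, {2, 7, 11},
    {3, 6, 10}, {3, 7, 9}, {3, 7, 10}]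

lemma tri_all : ∀ a b c : Fin 12, ex.Adj a b → ex.Adj a c → ex.Adj b c →
    ∃ i, ({a, b, c} : Finset (Fin 12)) = tri i := by
  decide

lemma tri_inj : Function.Injective tri := by decide

lemma no_factor : ¬ HasTriangleFactor ex := by
  classical
  rintro ⟨P, hP, hv⟩
  set x : Fin 11 → ℕ := fun i => if tri i ∈ P then 1 else 0 with hx
  have key : ∀ v : Fin 12, ∑ i, (if v ∈ tri i then x i else 0) = 1 := by
    intro v
    obtain ⟨S, ⟨hSP, hvS⟩, huniq⟩ := hv v
    have hS := hP S hSP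
    obtain ⟨a, b, c, hab, hac, hbc, rfl⟩ := (is3Clique_iff).mp hS
    obtain ⟨j, hj⟩ := tri_all a b c hab hac hbc
    rw [hj] at hSP hvS huniq
    rw [Finset.sum_eq_single j]
    · simp [hx, hSP, hvS]
    · intro i _ hij
      by_cases h1 : v ∈ tri i
      · by_cases h2 : tri i ∈ P
        · exact absurd (tri_inj (huniq _ ⟨h2, h1⟩)) hij
        · simp [hx, h2]
      · simp [h1]
    · intro h; exact absurd (mem_univ _) h
  have h0 := key 0
  have h1 := key 1
  have h2 := key 2
  have h3 := key 3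
  have h4 := key 4
  have h5 := key 5
  have h6 := key 6
  have h7 := key 7
  have h8 := key 8
  have h9 := key 9
  have h10 := key 10
  have h11 := key 11
  simp [Fin.sum_univ_succ, tri] at h0 h1 h2 h3 h4 h5 h6 h7 h8 h9 h10 h11
  omega

/-- There is a balanced tripartite graph `G` on 12 vertices such that `G(t)` has a triangle factor
for every `t ≥ 2` but `G` has none. Hence the implication asked in Q1 is false. -/
theorem result :
    (∃ (G : SimpleGraph (Fin 12)) (c : Fin 12 → Fin 3),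
      (∀ k : Fin 3, (univ.filter (fun v => c v = k)).card = 4) ∧
      (∀ u v, G.Adj u v → c u ≠ c v) ∧
      (∀ t : ℕ, 2 ≤ t → HasTriangleFactor (blowup G t)) ∧ ¬ HasTriangleFactor G) ∧
    ¬ (∀ (n : ℕ) (G : SimpleGraph (Fin n)) (t : ℕ), 1 ≤ t →
      HasTriangleFactor (blowup G t) → HasTriangleFactor (blowup G (t + 1)) →
      HasTriangleFactor G) := by
  have main : (∀ t : ℕ, 2 ≤ t → HasTriangleFactor (blowup ex t)) ∧ ¬ HasTriangleFactor ex :=
    ⟨fun t ht => (ff t ht).has, no_factor⟩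
  refine ⟨⟨ex, part, by decide, by decide, main⟩, ?_⟩
  intro h
  exact main.2 (h 12 ex 2 (by norm_num) (main.1 2 le_rfl) (main.1 3 (by norm_num)))

end Pool.Agent.Results.MP_285f62_co.NoFactor
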